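import Pool.Agent.Helper60.GM67.Suf2

/-!
Good measures for the exponential Dirichlet problem in dimension at least three:
a necessary and sufficient condition in terms of the masses of balls.
-/

namespace Pool.Agent.Results.MP_67d8ff_an.BallMassCriterion

open MeasureTheory Set Metric Filter Topology Laplacian
open scoped ContDiff

/-- Euclidean space of dimension `N`. -/
abbrev Sp (N : ℕ) := EuclideanSpace ℝ (Fin N)

/-- The integral of `f` with respect to the finite signed Borel measure `μ`. -/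
noncomputable def sint {N : ℕ} (μ : SignedMeasure (Sp N)) (f : Sp N → ℝ) : ℝ :=
  (∫ x, f x ∂μ.toJordanDecomposition.posPart) - ∫ x, f x ∂μ.toJordanDecomposition.negPart

/-- `μ` is a good measure in `Ω` for `g(t) = exp t - 1`: the Dirichlet problem
`-Δu + g(u) = μ` in `Ω`, `u = 0` on the boundary, has a solution in the weak sense, with all
smooth test functions vanishing on the boundary of `Ω`. -/
def Good {N : ℕ} (Ω : Set (Sp N)) (μ : SignedMeasure (Sp N)) : Prop :=
  ∃ u : Sp N → ℝ, IntegrableOn u Ω ∧ IntegrableOn (fun x => Real.exp (u x) - 1) Ω ∧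
    ∀ ζ : Sp N → ℝ, ContDiff ℝ ∞ ζ → (∀ x ∈ frontier Ω, ζ x = 0) →
      -(∫ x in Ω, u x * (Δ ζ) x) + ∫ x in Ω, (Real.exp (u x) - 1) * ζ x = sint μ ζ

/-- The weighted integral of the masses of the balls centred at `x`,
`1/(N ω_N) ∫_r^1 ν(B(x;s)) s^(1-N) ds`, where `N ω_N` is the area of the unit sphere. -/
noncomputable def Phi {N : ℕ} (ν : Measure (Sp N)) (x : Sp N) (r : ℝ) : ℝ :=
  1 / (N * (volume (ball (0 : Sp N) 1)).toReal)
    * ∫ s in r..1, (ν (closedBall x s)).toReal * (s ^ (N - 1))⁻¹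

/-- Let `N ≥ 3`, let `Ω` be a bounded open set and `μ` a finite signed Borel measure on `Ω`.
Then `μ` is good if and only if, for almost every `x` with respect to the positive part `μ⁺`,
for every `ε > 0` and all sufficiently small `r > 0`,
`1/(N ω_N) ∫_r^1 μ⁺(B(x;s)) s^(1-N) ds ≤ log (μ⁺(B(x;r)) / r^N) + ε log (1/r)`. -/
theorem result (N : ℕ) (hN : 3 ≤ N) (Ω : Set (Sp N)) (hΩ : IsOpen Ω)
    (hb : Bornology.IsBounded Ω) (μ : SignedMeasure (Sp N)) (hμ : μ.totalVariation Ωᶜ = 0) :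
    Good Ω μ ↔
      ∀ᵐ x ∂μ.toJordanDecomposition.posPart, ∀ ε > 0, ∀ᶠ r in 𝓝[>] (0 : ℝ),
        Phi μ.toJordanDecomposition.posPart x r
          ≤ Real.log ((μ.toJordanDecomposition.posPart (closedBall x r)).toReal / r ^ N)
            + ε * Real.log (1 / r) := by
  have hs := μ.toJordanDecomposition.mutuallySingular
  set μp := μ.toJordanDecomposition.posPart with hμp
  set μn := μ.toJordanDecomposition.negPart with hμn
  have hsum : μp Ωᶜ + μn Ωᶜ = 0 := hμ
  have hp : μp Ωᶜ = 0 := (add_eq_zero.1 hsum).1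
  have hn : μn Ωᶜ = 0 := (add_eq_zero.1 hsum).2
  have hlap : ∀ ζ : Sp N → ℝ, ContDiff ℝ 2 ζ → (Δ ζ) = Helper60.GM67.lap ζ := by
    intro ζ hζ
    funext x
    exact Pool.Agent.R216.VPD.lap_eq hζ.contDiffAt
  constructor
  · rintro ⟨u, hu1, hu2, hu3⟩
    refine Helper60.GM67.necessity hN hΩ hb hs hp (μn := μn) (u := u) ⟨hu1, hu2, ?_⟩
    intro ζ hζ hζ0
    have h := hu3 ζ hζ hζ0
    rw [hlap ζ (hζ.of_le (by norm_cast))] at h
    exact h
  · intro h
    obtain ⟨u, hu1, hu2, hu3⟩ := Helper60.GM67.sufficiency hN hΩ hb hs hp hn h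
    refine ⟨u, hu1, hu2, fun ζ hζ hζ0 => ?_⟩
    have hζ2 : ContDiff ℝ 2 ζ := hζ.of_le (by norm_cast)
    rw [hlap ζ hζ2]
    exact hu3 ζ ⟨hζ2, hζ0⟩

end Pool.Agent.Results.MP_67d8ff_an.BallMassCriterion
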